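import Pool.Agent.D0H67.TS.DStm

/-! # Module AIND: algebraically independent minors -/

set_option autoImplicit false

namespace Pool.Agent.D0H20.TS

open MvPolynomial
open Pool.Agent.D0H67.TS (minG)

/-- the generic square submatrix -/
noncomputable def Bm {m n : Type} {l : ℕ} (a : Fin l → m) (b : Fin l → n) :
    Matrix (Fin l) (Fin l) (MvPolynomial (m × n) ℂ) := Matrix.of fun i j => X (a i, b j)

theorem det_Bm_ne {m n : Type} {l : ℕ} {a : Fin l → m} {b : Fin l → n}
    (ha : Function.Injective a) (hb : Function.Injective b) : (Bm a b).det ≠ 0 := by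
  classical
  intro h
  let u : m × n → ℂ := fun p => if ∃ s, a s = p.1 ∧ b s = p.2 then 1 else 0
  have h1 : eval u (Bm a b).det = 1 := by
    have h2 : eval u (Bm a b).det = ((eval u).mapMatrix (Bm a b)).det := RingHom.map_det _ _
    rw [h2]
    have h3 : (eval u).mapMatrix (Bm a b) = 1 := by
      ext i j
      simp only [RingHom.mapMatrix_apply, Matrix.map_apply, Bm, Matrix.of_apply, eval_X, u]
      by_cases hij : i = j
      · subst hij
        rw [Matrix.one_apply_eq, if_pos ⟨i, rfl, rfl⟩]
      · rw [Matrix.one_apply_ne hij, if_neg]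
        rintro ⟨s, h4, h5⟩
        exact hij ((ha h4).symm.trans (hb h5))
    rw [h3, Matrix.det_one]
  rw [h, map_zero] at h1
  exact zero_ne_one h1

theorem exists_inj {α : Type} [Fintype α] (x : α) (k : ℕ) (hk : k < Fintype.card α) :
    ∃ a : Fin (k + 1) → α, Function.Injective a ∧ a 0 = x := by
  classical
  have h1 : Fintype.card (Fin (k + 1)) ≤ Fintype.card α := by simpa using hk
  obtain ⟨f⟩ := Function.Embedding.nonempty_of_card_le h1
  refine ⟨fun s => Equiv.swap (f 0) x (f s), ?_, ?_⟩
  · exact (Equiv.injective _).comp f.injective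
  · simp

theorem aeval_aux {A R : Type} [CommRing A] [CommRing R] [Algebra A R] (x : R) (y z : A) (k : ℕ) :
    Polynomial.aeval x (Polynomial.C y * Polynomial.X ^ k - Polynomial.C z) =
      algebraMap A R y * x ^ k - algebraMap A R z := by
  simp

theorem algebraic_X {m n : Type} [Fintype m] [Fintype n] (k : ℕ) (hk : 1 ≤ k)
    (hm : k < Fintype.card m) (hn : k < Fintype.card n) (p : m × n) :
    IsAlgebraic (Algebra.adjoin ℂ (Set.range (minG m n k))) (X p : MvPolynomial (m × n) ℂ) := by
  classical
  obtain ⟨a, ha, ha0⟩ := exists_inj p.1 k hm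
  obtain ⟨b, hb, hb0⟩ := exists_inj p.2 k hn
  set A₀ := Algebra.adjoin ℂ (Set.range (minG m n k)) with hA₀
  set B := Bm a b with hB
  have hd : B.det ≠ 0 := det_Bm_ne ha hb
  have hmem : ∀ i j, B.adjugate i j ∈ A₀ := by
    intro i j
    rw [Matrix.adjugate_fin_succ_eq_det_submatrix]
    have h1 : (B.submatrix j.succAbove i.succAbove).det =
        minG m n k (a ∘ j.succAbove, b ∘ i.succAbove) := rfl
    rw [h1]
    exact A₀.mul_mem (A₀.pow_mem (A₀.neg_mem A₀.one_mem) _)
      (Algebra.subset_adjoin (Set.mem_range_self _))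
  let M : Matrix (Fin (k + 1)) (Fin (k + 1)) A₀ := Matrix.of fun i j => ⟨B.adjugate i j, hmem i j⟩
  let f : A₀ →+* MvPolynomial (m × n) ℂ := A₀.val.toRingHom
  have hM : f.mapMatrix M = B.adjugate := by
    ext i j
    rfl
  have he : f M.det = B.det ^ k := by
    rw [RingHom.map_det, hM, Matrix.det_adjugate, Fintype.card_fin, Nat.add_sub_cancel]
  have hc : f (M.adjugate 0 0) = B.det ^ (k - 1) * X p := by
    have h1 : f.mapMatrix M.adjugate = B.adjugate.adjugate := by
      rw [RingHom.map_adjugate, hM]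
    have h2 : f (M.adjugate 0 0) = (f.mapMatrix M.adjugate) 0 0 := rfl
    rw [h2, h1, Matrix.adjugate_adjugate _ (by rw [Fintype.card_fin]; omega), Fintype.card_fin,
      Matrix.smul_apply, smul_eq_mul]
    have h3 : B 0 0 = X p := by
      rw [hB]
      simp only [Bm, Matrix.of_apply, ha0, hb0]
    rw [h3]
    congr 2
  refine ⟨Polynomial.C (M.det ^ (k - 1)) * Polynomial.X ^ k - Polynomial.C (M.adjugate 0 0 ^ k),
    ?_, ?_⟩
  · intro h
    have h1 := congrArg (fun q => Polynomial.coeff q k) h
    simp only [Polynomial.coeff_sub, Polynomial.coeff_C_mul, Polynomial.coeff_X_pow, if_pos,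
      mul_one, Polynomial.coeff_C, if_neg (show k ≠ 0 by omega), sub_zero, Polynomial.coeff_zero] at h1
    have h2 : f (M.det ^ (k - 1)) = 0 := by rw [h1, map_zero]
    rw [map_pow, he] at h2
    exact pow_ne_zero (k - 1) (pow_ne_zero k hd) h2
  · have h1 : ∀ y z : A₀, Polynomial.aeval (X p : MvPolynomial (m × n) ℂ)
        (Polynomial.C y * Polynomial.X ^ k - Polynomial.C z) = f y * X p ^ k - f z := by
      intro y z
      exact aeval_aux _ y z k
    rw [h1, map_pow, map_pow, he, hc, mul_pow, ← pow_mul, ← pow_mul, mul_comm k (k - 1), sub_self]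

theorem aind {m n : Type} [Fintype m] [Fintype n] (k : ℕ) (hk : 1 ≤ k)
    (hm : k < Fintype.card m) (hn : k < Fintype.card n) :
    ∃ ι : m × n → (Fin k → m) × (Fin k → n),
    AlgebraicIndependent ℂ fun i => minG m n k (ι i) := by
  classical
  have halg : Algebra.IsAlgebraic (Algebra.adjoin ℂ (Set.range (minG m n k)))
      (MvPolynomial (m × n) ℂ) := by
    refine ⟨fun x => ?_⟩
    rw [← Subalgebra.mem_algebraicClosure]
    induction x using MvPolynomial.induction_on with
    | C c =>
      rw [Subalgebra.mem_algebraicClosure]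
      have := isAlgebraic_algebraMap (R := Algebra.adjoin ℂ (Set.range (minG m n k)))
        (A := MvPolynomial (m × n) ℂ) (algebraMap ℂ _ c)
      exact this
    | add p q hp hq => exact add_mem hp hq
    | mul_X p i hp => exact mul_mem hp (algebraic_X k hk hm hn i)
  obtain ⟨t, ht, hbas⟩ := exists_isTranscendenceBasis_subset (R := ℂ) (Set.range (minG m n k))
  have hcard : Cardinal.mk (m × n) = Cardinal.mk t := by
    rw [hbas.cardinalMk_eq_trdeg, MvPolynomial.trdeg_of_isDomain, Cardinal.lift_id]
  obtain ⟨e⟩ := Cardinal.eq.1 hcard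
  choose ι hι using fun i => ht (e i).2
  refine ⟨ι, ?_⟩
  have h1 : (fun i => minG m n k (ι i)) = (fun x : t => (x : MvPolynomial (m × n) ℂ)) ∘ e := by
    funext i
    exact hι i
  rw [h1]
  exact hbas.1.comp e e.injective

theorem t_AIND : Pool.Agent.D0H67.TS.S_AIND := by
  intro m n _ _ k hk hm hn
  exact aind k hk hm hn

end Pool.Agent.D0H20.TS
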