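import Pool.Agent.D0H67.TS.DStm

/-! # Module RANK: a point of rank `r` -/

set_option autoImplicit false

namespace Pool.Agent.D0H20.TS

open MvPolynomial
open Pool.Agent.D0H67.TS (minG brd)

theorem eval_minG {m n : Type} (k : ℕ) (u : m × n → ℂ) (q : (Fin k → m) × (Fin k → n)) :
    eval u (minG m n k q) = (Matrix.of fun i j => u (q.1 i, q.2 j) : Matrix (Fin k) (Fin k) ℂ).det := by
  unfold minG
  rw [RingHom.map_det]
  congr 1
  ext i j
  simp [RingHom.mapMatrix_apply]

theorem eval_brd {m n : Type} {r : ℕ} (a : Fin r → m) (b : Fin r → n) (u : m × n → ℂ)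
    (q : {i : m // i ∉ Set.range a} × {j : n // j ∉ Set.range b}) :
    eval u (brd m n a b q) =
      (Matrix.of fun i j => u (a i, b j) : Matrix (Fin r) (Fin r) ℂ).det * u (q.1.1, q.2.1) -
      ∑ s, ∑ t, u (q.1.1, b s) *
        (Matrix.of fun i j => u (a i, b j) : Matrix (Fin r) (Fin r) ℂ).adjugate s t * u (a t, q.2.1) := by
  have h1 : ∀ s t, eval u ((Matrix.of fun i j => X (a i, b j) :
      Matrix (Fin r) (Fin r) (MvPolynomial (m × n) ℂ)).adjugate s t) =
      (Matrix.of fun i j => u (a i, b j) : Matrix (Fin r) (Fin r) ℂ).adjugate s t := by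
    intro s t
    have h2 := congrFun (congrFun (RingHom.map_adjugate (eval u) (Matrix.of fun i j => X (a i, b j) :
      Matrix (Fin r) (Fin r) (MvPolynomial (m × n) ℂ))) s) t
    rw [RingHom.mapMatrix_apply, Matrix.map_apply] at h2
    rw [h2]
    have h3 : (eval u).mapMatrix (Matrix.of fun i j => X (a i, b j) :
        Matrix (Fin r) (Fin r) (MvPolynomial (m × n) ℂ)) = Matrix.of fun i j => u (a i, b j) := by
      ext i j
      simp [RingHom.mapMatrix_apply]
    rw [h3]
  unfold brd
  rw [map_sub, map_mul, map_sum, eval_minG, eval_X]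
  congr 1
  refine Finset.sum_congr rfl fun s _ => ?_
  rw [map_sum]
  refine Finset.sum_congr rfl fun t _ => ?_
  rw [map_mul, map_mul, h1, eval_X, eval_X]

theorem brd_minor {m n : Type} {r : ℕ} (a : Fin r → m) (b : Fin r → n) (u : m × n → ℂ)
    (hu : eval u (minG m n r (a, b)) ≠ 0)
    (h : ∀ q, eval u (minG m n (r + 1) q) = 0)
    (q : {i : m // i ∉ Set.range a} × {j : n // j ∉ Set.range b}) :
    eval u (brd m n a b q) = 0 := by
  classical
  rw [eval_minG] at hu
  rw [eval_brd]
  simp only at hu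
  set A : Matrix (Fin r) (Fin r) ℂ := Matrix.of fun i j => u (a i, b j) with hA
  let a' : Fin (r + 1) → m := fun x => Sum.elim a (fun _ => q.1.1) (finSumFinEquiv.symm x)
  let b' : Fin (r + 1) → n := fun x => Sum.elim b (fun _ => q.2.1) (finSumFinEquiv.symm x)
  have h1 := h (a', b')
  rw [eval_minG] at h1
  let B : Matrix (Fin r) (Fin 1) ℂ := Matrix.of fun t _ => u (a t, q.2.1)
  let C : Matrix (Fin 1) (Fin r) ℂ := Matrix.of fun _ s => u (q.1.1, b s)
  let D : Matrix (Fin 1) (Fin 1) ℂ := Matrix.of fun _ _ => u (q.1.1, q.2.1)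
  have h2 : (Matrix.of fun i j => u ((a', b').1 i, (a', b').2 j) : Matrix (Fin (r + 1)) (Fin (r + 1)) ℂ) =
      (Matrix.fromBlocks A B C D).submatrix finSumFinEquiv.symm finSumFinEquiv.symm := by
    ext x y
    simp only [Matrix.of_apply, Matrix.submatrix_apply, a', b']
    rcases finSumFinEquiv.symm x with x | x <;> rcases finSumFinEquiv.symm y with y | y <;>
      simp [A, B, C, D]
  rw [h2, Matrix.det_submatrix_equiv_self] at h1
  have hun : IsUnit A.det := isUnit_iff_ne_zero.2 hu
  have : Invertible A := Matrix.invertibleOfIsUnitDet A hun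
  rw [Matrix.det_fromBlocks₁₁, Matrix.det_fin_one, Matrix.invOf_eq_nonsing_inv] at h1
  have hadj : A.adjugate = A.det • A⁻¹ := by
    rw [Matrix.inv_def, smul_smul, Ring.mul_inverse_cancel _ hun, one_smul]
  rw [← h1, hadj, Matrix.sub_apply, mul_sub]
  congr 1
  rw [Matrix.mul_apply, Finset.mul_sum, Finset.sum_comm]
  refine Finset.sum_congr rfl fun t _ => ?_
  rw [Matrix.mul_apply, Finset.sum_mul, Finset.mul_sum]
  refine Finset.sum_congr rfl fun s _ => ?_
  simp only [Matrix.smul_apply, smul_eq_mul, B, C, Matrix.of_apply]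
  ring

theorem inj_of_ne {m n : Type} {r : ℕ} (a : Fin r → m) (b : Fin r → n) (u : m × n → ℂ)
    (hu : eval u (minG m n r (a, b)) ≠ 0) : Function.Injective a ∧ Function.Injective b := by
  rw [eval_minG] at hu
  constructor
  · intro i j hij
    by_contra hne
    apply hu
    refine Matrix.det_zero_of_row_eq hne ?_
    funext x
    simp only [Matrix.of_apply, hij]
  · intro i j hij
    by_contra hne
    apply hu
    refine Matrix.det_zero_of_column_eq hne ?_
    intro x
    simp only [Matrix.of_apply, hij]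

theorem rank_main {m n : Type} (k : ℕ) (u : m × n → ℂ) (hu : u ≠ 0)
    (hk : ∀ q, eval u (minG m n k q) = 0) : ∃ r, 1 ≤ r ∧ r < k ∧ ∃ (a : Fin r → m) (b : Fin r → n),
    Function.Injective a ∧ Function.Injective b ∧ eval u (minG m n r (a, b)) ≠ 0 ∧
    ∀ q, eval u (brd m n a b q) = 0 := by
  classical
  have hP1 : ∃ q, eval u (minG m n 1 q) ≠ 0 := by
    obtain ⟨p, hp⟩ := Function.ne_iff.1 hu
    refine ⟨(fun _ => p.1, fun _ => p.2), ?_⟩
    rw [eval_minG, Matrix.det_fin_one]
    exact hp
  have hk0 : k ≠ 0 := by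
    rintro rfl
    have := hk (Fin.elim0, Fin.elim0)
    rw [eval_minG, Matrix.det_fin_zero] at this
    exact one_ne_zero this
  have hk1 : k ≠ 1 := by
    rintro rfl
    obtain ⟨q, hq⟩ := hP1
    exact hq (hk q)
  have hex : ∃ j, 1 ≤ j ∧ ∀ q, eval u (minG m n (j + 1) q) = 0 :=
    ⟨k - 1, by omega, by
      have : k - 1 + 1 = k := by omega
      rw [this]
      exact hk⟩
  set r := Nat.find hex with hr
  obtain ⟨hr1, hr2⟩ := Nat.find_spec hex
  have hrk : r ≤ k - 1 := Nat.find_min' hex ⟨by omega, by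
      have : k - 1 + 1 = k := by omega
      rw [this]
      exact hk⟩
  have hPr : ∃ q, eval u (minG m n r q) ≠ 0 := by
    by_cases h1 : r = 1
    · rw [h1]
      exact hP1
    · have h2 : r - 1 < Nat.find hex := by omega
      have h3 := Nat.find_min hex h2
      have h4 : r - 1 + 1 = r := by omega
      rw [h4] at h3
      push Not at h3
      exact h3 (by omega)
  obtain ⟨⟨a, b⟩, hab⟩ := hPr
  obtain ⟨ha, hb⟩ := inj_of_ne a b u hab
  exact ⟨r, hr1, by omega, a, b, ha, hb, hab, brd_minor a b u hab hr2⟩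

theorem t_RANK : Pool.Agent.D0H67.TS.S_RANK := by
  intro m n _ _ k u hu hk
  exact rank_main k u hu hk

end Pool.Agent.D0H20.TS
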